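import Mathlib
import Pool.Agent.V1130.RelStr
import Pool.Agent.V1130.FreeExt

/-!
Every relational Fraisse structure (with strong amalgamation) with rigid `k`-subsets admits a
structurally sharply `k`-transitive action.
-/

namespace Pool.Agent.Results.MP_301b8f_al.RigidSharp

set_option linter.unusedVariables false
set_option linter.unusedSimpArgs false

open FirstOrder Language Structure
open Pool.Agent.V1130.RelStr Pool.Agent.V1130.FreeExt

universe u v w

/-- `G` acts on the structure `M` by automorphisms (all function and relation symbols are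
preserved). -/
def ActsByAutomorphisms (L : FirstOrder.Language.{u, v}) (M : Type w) [L.Structure M]
    (G : Type*) [Group G] [MulAction G M] : Prop :=
  ∀ g : G, (∀ (n : ℕ) (F : L.Functions n) (x : Fin n → M),
      funMap F (fun i => g • x i) = g • funMap F x) ∧
    (∀ (n : ℕ) (R : L.Relations n) (x : Fin n → M),
      RelMap R (fun i => g • x i) ↔ RelMap R x)

/-- The coordinatewise map `a i ↦ b i` is an isomorphism of the induced (relational)
substructures; used for tuples of pairwise distinct elements. -/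
def SameType (L : FirstOrder.Language.{u, v}) {M : Type w} [L.Structure M] {k : ℕ}
    (a b : Fin k → M) : Prop :=
  ∀ (n : ℕ) (R : L.Relations n) (x : Fin n → Fin k),
    RelMap R (fun i => a (x i)) ↔ RelMap R (fun i => b (x i))

/-- The action of `G` on `M` is structurally sharply `k`-transitive. -/
def StructurallySharplyTransitive (L : FirstOrder.Language.{u, v}) (M : Type w) [L.Structure M]
    (G : Type*) [Group G] [MulAction G M] (k : ℕ) : Prop :=
  ActsByAutomorphisms L M G ∧
    ∀ a b : Fin k → M, Function.Injective a → Function.Injective b → SameType L a b →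
      ∃! g : G, ∀ i, g • a i = b i

/-- `M` has rigid `k`-subsets: every substructure with exactly `k` elements has trivial
automorphism group (relational language, `k ≥ 1`). -/
def RigidSubsets (L : FirstOrder.Language.{u, v}) (M : Type w) [L.Structure M] (k : ℕ) : Prop :=
  ∀ S : L.Substructure M, Nat.card S = k → ∀ e : S ≃[L] S, ∀ x : S, e x = x

variable {L : FirstOrder.Language.{u, v}} {M : Type w} [L.Structure M] {k : ℕ}

theorem SameType.symm {a b : Fin k → M} (h : SameType L a b) : SameType L b a :=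
  fun n R x => (h n R x).symm

theorem SameType.trans {a b c : Fin k → M} (h : SameType L a b) (h' : SameType L b c) :
    SameType L a c := fun n R x => (h n R x).trans (h' n R x)

theorem SameType.perm {a b : Fin k → M} (h : SameType L a b) (ρ : Fin k → Fin k) :
    SameType L (a ∘ ρ) (b ∘ ρ) := fun n R x => h n R (ρ ∘ x)

theorem rigid_perm [L.IsRelational] (hr : RigidSubsets L M k) {a : Fin k → M}
    (ha : Function.Injective a) {ρ : Equiv.Perm (Fin k)} (h : SameType L a (a ∘ ρ)) : ρ = 1 := by
  let S : L.Substructure M := subOf (Set.range a)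
  have hcard : Nat.card S = k := by
    have : Nat.card (Set.range a) = k := by
      rw [Nat.card_range_of_injective ha, Nat.card_eq_fintype_card, Fintype.card_fin]
    exact this
  let ea : Fin k ≃ S := Equiv.ofInjective a ha
  have hea : ∀ j, (ea j : M) = a j := fun j => rfl
  let e : S ≃[L] S :=
    { toEquiv := (ea.symm.trans ρ).trans ea
      map_fun' := fun {n} g => isEmptyElim g
      map_rel' := fun {n} R x => by
        have h1 := h n R (fun i => ea.symm (x i))
        have h2 : (fun i => a (ea.symm (x i))) = fun i => (x i : M) := by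
          funext i; rw [← hea]; simp
        rw [h2] at h1
        exact h1.symm }
  have h1 := hr S hcard e
  ext j
  have h2 : ea (ρ (ea.symm (ea j))) = ea j := h1 (ea j)
  rw [Equiv.symm_apply_apply] at h2
  have h3 := ea.injective h2
  simp [h3]

/-! ### Finite partial actions -/

/-- labelled edges: `(i, x, y)` means that the `i`-th generator maps `x` to `y`. -/
abbrev Edge (M : Type w) := ℕ × M × M

/-- step relation -/
def St (E : Set (Edge M)) (l : Letter) (x y : M) : Prop :=
  (l.2 = true ∧ (l.1, x, y) ∈ E) ∨ (l.2 = false ∧ (l.1, y, x) ∈ E)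

theorem St_inv {E : Set (Edge M)} {l : Letter} {x y : M} (h : St E l x y) : St E (inv l) y x := by
  rcases h with ⟨h1, h2⟩ | ⟨h1, h2⟩
  · right; exact ⟨by simp [inv, h1], h2⟩
  · left; exact ⟨by simp [inv, h1], h2⟩

/-- injective tuples -/
abbrev Tup (M : Type w) (k : ℕ) := {t : Fin k → M // Function.Injective t}

/-- permuting the coordinates -/
def Tup.perm (t : Tup M k) (ρ : Equiv.Perm (Fin k)) : Tup M k := ⟨t.1 ∘ ρ, t.2.comp ρ.injective⟩

/-- step relation on tuples -/
def TS (E : Set (Edge M)) (k : ℕ) (l : Letter) (t t' : Tup M k) : Prop :=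
  ∀ j, St E l (t.1 j) (t'.1 j)

/-- good edge sets -/
structure Good (L : FirstOrder.Language.{u, v}) {M : Type w} [L.Structure M] (k : ℕ)
    (E : Set (Edge M)) : Prop where
  rel : ∀ (i : ℕ) {n : ℕ} (R : L.Relations n) (x y : Fin n → M), (∀ j, (i, x j, y j) ∈ E) →
    (RelMap R x ↔ RelMap R y)
  fn : ∀ i x y y', (i, x, y) ∈ E → (i, x, y') ∈ E → y = y'
  inj : ∀ i x x' y, (i, x, y) ∈ E → (i, x', y) ∈ E → x = x'
  forest : Forest (TS E k)

theorem lab_TS {E : Set (Edge M)} (fn : ∀ i x y y', (i, x, y) ∈ E → (i, x, y') ∈ E → y = y')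
    (inj : ∀ i x x' y, (i, x, y) ∈ E → (i, x', y) ∈ E → x = x') : Lab (TS E k) := by
  refine ⟨fun l x y h j => St_inv (h j), fun l x y y' h h' => Subtype.ext (funext fun j => ?_)⟩
  rcases h j with ⟨h1, h2⟩ | ⟨h1, h2⟩ <;> rcases h' j with ⟨h3, h4⟩ | ⟨h3, h4⟩
  · exact fn _ _ _ _ h2 h4
  · rw [h1] at h3; simp at h3
  · rw [h1] at h3; simp at h3
  · exact inj _ _ _ _ h2 h4

theorem Good.lab {E : Set (Edge M)} (h : Good L k E) : Lab (TS E k) := lab_TS h.fn h.inj

theorem pth_sameType {E : Set (Edge M)} (hE : Good L k E) {w : List Letter} {t t' : Tup M k}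
    (h : Pth (TS E k) w t t') : SameType L t.1 t'.1 := by
  induction w generalizing t' with
  | nil => simp only [Pth] at h; subst h; exact fun _ _ _ => Iff.rfl
  | cons l w ih =>
    obtain ⟨s, hs, hst⟩ := h
    refine (ih hs).trans ?_
    intro n R x
    obtain ⟨i, ε⟩ := l
    cases ε with
    | true =>
      apply hE.rel i R
      intro j
      rcases hst (x j) with ⟨_, h2⟩ | ⟨h1, _⟩
      · exact h2
      · simp at h1
    | false =>
      symm
      apply hE.rel i R
      intro j
      rcases hst (x j) with ⟨h1, _⟩ | ⟨_, h2⟩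
      · simp at h1
      · exact h2

theorem pth_perm {E : Set (Edge M)} {w : List Letter} {t t' : Tup M k}
    (h : Pth (TS E k) w t t') (ρ : Equiv.Perm (Fin k)) :
    Pth (TS E k) w (t.perm ρ) (t'.perm ρ) := by
  induction w generalizing t' with
  | nil => simp only [Pth] at h; subst h; rfl
  | cons l w ih =>
    obtain ⟨s, hs, hst⟩ := h
    exact ⟨s.perm ρ, ih hs, fun j => hst (ρ j)⟩

theorem pth_rev {X : Type*} {S : Letter → X → X → Prop} (hS : Lab S) {w : List Letter} {x y : X}
    (h : Pth S w x y) : Pth S (w.reverse.map inv) y x := by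
  induction w generalizing y with
  | nil => exact h.symm
  | cons l w ih =>
    obtain ⟨s, hs, hst⟩ := h
    rw [List.reverse_cons, List.map_append, pth_append]
    exact ⟨s, ⟨y, rfl, hS.sym _ _ _ hst⟩, ih hs⟩

theorem Tup.perm_perm (t : Tup M k) (σ τ : Equiv.Perm (Fin k)) :
    (t.perm σ).perm τ = t.perm (σ * τ) := rfl

theorem Tup.perm_one (t : Tup M k) : t.perm 1 = t := rfl

/-! ### Swapping domain and range -/

/-- inverse of all generators -/
def swapE (E : Set (Edge M)) : Set (Edge M) := {e | (e.1, e.2.2, e.2.1) ∈ E}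

theorem St_swap {E : Set (Edge M)} {l : Letter} {x y : M} :
    St (swapE E) l x y ↔ St E (inv l) x y := by
  obtain ⟨i, ε⟩ := l
  cases ε <;> simp [St, swapE, inv]

theorem pth_swap {E : Set (Edge M)} {w : List Letter} {t t' : Tup M k} :
    Pth (TS (swapE E) k) w t t' ↔ Pth (TS E k) (w.map inv) t t' := by
  induction w generalizing t' with
  | nil => exact Iff.rfl
  | cons l w ih =>
    simp only [List.map_cons, Pth, ih]
    refine exists_congr fun s => and_congr_right fun _ => ?_
    exact forall_congr' fun j => St_swap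

theorem Good.swap {E : Set (Edge M)} (h : Good L k E) : Good L k (swapE E) := by
  refine ⟨fun i n R x y hxy => (h.rel i R y x hxy).symm, fun i x y y' h1 h2 => h.inj i y y' x h1 h2,
    fun i x x' y h1 h2 => h.fn i y x x' h1 h2, ?_⟩
  intro w x hw hr hp
  rw [pth_swap] at hp
  refine h.forest (w.map inv) x (by simpa using hw) ?_ hp
  rw [Reduced, List.isChain_map]
  refine hr.imp ?_
  intro a b hab h
  apply hab
  have := congrArg inv h
  simpa using this

theorem swap_swap (E : Set (Edge M)) : swapE (swapE E) = E := rfl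

/-! ### Extension of the domain of a generator -/

theorem ext_dom (hk : 1 ≤ k) [DecidableEq M] (hext : ExtAvoid L M) (E : Set (Edge M))
    (hfin : E.Finite) (hE : Good L k E) (i : ℕ) (x : M) (hx : ∀ y, (i, x, y) ∉ E) :
    ∃ y, Good L k (insert (i, x, y) E) := by
  classical
  let E' : Finset (Edge M) := hfin.toFinset
  have hE' : ∀ e, e ∈ E' ↔ e ∈ E := fun e => by simp [E']
  let A : Finset M := (E'.filter (fun e => e.1 = i)).image (fun e => e.2.1)
  have hA : ∀ z, z ∈ A ↔ ∃ y, (i, z, y) ∈ E := by
    intro z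
    simp only [A, Finset.mem_image, Finset.mem_filter, hE']
    constructor
    · rintro ⟨⟨i', z', y'⟩, ⟨h1, h2⟩, h3⟩
      simp only at h2 h3
      subst h2 h3
      exact ⟨y', h1⟩
    · rintro ⟨y, hy⟩
      exact ⟨(i, z, y), ⟨hy, rfl⟩, rfl⟩
  let f : M → M := fun z => if h : ∃ y, (i, z, y) ∈ E then h.choose else z
  have hf : ∀ z y, (i, z, y) ∈ E → f z = y := by
    intro z y hy
    have h : ∃ y, (i, z, y) ∈ E := ⟨y, hy⟩
    simp only [f, h, dif_pos]
    exact hE.fn _ _ _ _ h.choose_spec hy
  have hf' : ∀ z ∈ A, (i, z, f z) ∈ E := by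
    intro z hz
    obtain ⟨y, hy⟩ := (hA z).1 hz
    rw [hf z y hy]; exact hy
  have hpf : PIso L A f := by
    refine ⟨fun a ha b hb hab => ?_, fun {n} R v hv => ?_⟩
    · exact hE.inj i a b (f a) (hf' a ha) (by rw [hab]; exact hf' b hb)
    · exact (hE.rel i R v (f ∘ v) (fun j => hf' _ (hv j))).symm
  have hxA : x ∉ A := fun h => by
    obtain ⟨y, hy⟩ := (hA x).1 h
    exact hx y hy
  let F : Finset M := insert x (E'.image (fun e => e.2.1) ∪ E'.image (fun e => e.2.2))
  obtain ⟨y, hyF, hy⟩ := hext A f hpf x hxA F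
  have hyx : y ≠ x := fun h => hyF (by simp [F, h])
  have hyE : ∀ i' z, (i', y, z) ∉ E ∧ (i', z, y) ∉ E := by
    intro i' z
    constructor
    · intro h
      apply hyF
      simp only [F, Finset.mem_insert, Finset.mem_union, Finset.mem_image]
      exact Or.inr (Or.inl ⟨_, (hE' _).2 h, rfl⟩)
    · intro h
      apply hyF
      simp only [F, Finset.mem_insert, Finset.mem_union, Finset.mem_image]
      exact Or.inr (Or.inr ⟨_, (hE' _).2 h, rfl⟩)
  have hfn : ∀ i' a b b', (i', a, b) ∈ insert (i, x, y) E → (i', a, b') ∈ insert (i, x, y) E →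
      b = b' := by
    intro i' a b b' h1 h2
    rcases h1 with h1 | h1 <;> rcases h2 with h2 | h2
    · simp only [Prod.mk.injEq] at h1 h2
      rw [h1.2.2, h2.2.2]
    · simp only [Prod.mk.injEq] at h1
      obtain ⟨rfl, rfl, rfl⟩ := h1
      exact absurd h2 (hx b')
    · simp only [Prod.mk.injEq] at h2
      obtain ⟨rfl, rfl, rfl⟩ := h2
      exact absurd h1 (hx b)
    · exact hE.fn _ _ _ _ h1 h2
  have hinj : ∀ i' a a' b, (i', a, b) ∈ insert (i, x, y) E → (i', a', b) ∈ insert (i, x, y) E →
      a = a' := by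
    intro i' a a' b h1 h2
    rcases h1 with h1 | h1 <;> rcases h2 with h2 | h2
    · simp only [Prod.mk.injEq] at h1 h2
      rw [h1.2.1, h2.2.1]
    · simp only [Prod.mk.injEq] at h1
      obtain ⟨rfl, rfl, rfl⟩ := h1
      exact absurd h2 (hyE _ _).2
    · simp only [Prod.mk.injEq] at h2
      obtain ⟨rfl, rfl, rfl⟩ := h2
      exact absurd h1 (hyE _ _).2
    · exact hE.inj _ _ _ _ h1 h2
  refine ⟨y, ⟨?_, hfn, hinj, ?_⟩⟩
  · intro i' n R a b hab
    by_cases hi : i' = i
    · subst hi
      have h1 : ∀ j, a j ∈ insert x A ∧ b j = Function.update f x y (a j) := by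
        intro j
        rcases hab j with h | h
        · simp only [Prod.mk.injEq, true_and] at h
          obtain ⟨h2, h3⟩ := h
          rw [h2, h3]
          simp
        · have h2 : a j ∈ A := (hA _).2 ⟨_, h⟩
          have h3 : a j ≠ x := fun h' => hxA (h' ▸ h2)
          exact ⟨Finset.mem_insert_of_mem h2, by rw [Function.update_of_ne h3, hf _ _ h]⟩
      have h2 : b = Function.update f x y ∘ a := funext fun j => (h1 j).2
      rw [h2]
      exact (hy.rel R a (fun j => (h1 j).1)).symm
    · apply hE.rel i' R a b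
      intro j
      rcases hab j with h | h
      · simp only [Prod.mk.injEq] at h
        exact absurd h.1 hi
      · exact h
  · refine forest_leaf hE.forest (lab_TS hfn hinj) {t | ∃ j, t.1 j = y} ?_ ?_
    · rintro t ⟨j, hj⟩ l z l' z' h1 h2
      have key : ∀ (l : Letter) (z : Tup M k), TS (insert (i, x, y) E) k l t z → l = (i, false) := by
        intro l z h
        have h' := h j
        rw [hj] at h'
        rcases h' with ⟨h3, h4⟩ | ⟨h3, h4⟩
        · rcases h4 with h4 | h4
          · simp only [Prod.mk.injEq] at h4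
            exact absurd h4.2.1 hyx
          · exact absurd h4 (hyE _ _).1
        · rcases h4 with h4 | h4
          · simp only [Prod.mk.injEq] at h4
            exact Prod.ext h4.1 h3
          · exact absurd h4 (hyE _ _).2
      rw [key l z h1, key l' z' h2]
    · intro l t t' ht ht' h j
      rcases h j with ⟨h3, h4⟩ | ⟨h3, h4⟩
      · rcases h4 with h4 | h4
        · simp only [Prod.mk.injEq] at h4
          exact absurd ⟨j, h4.2.2⟩ ht'
        · exact Or.inl ⟨h3, h4⟩
      · rcases h4 with h4 | h4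
        · simp only [Prod.mk.injEq] at h4
          exact absurd ⟨j, h4.2.2⟩ ht
        · exact Or.inr ⟨h3, h4⟩

theorem ext_ran (hk : 1 ≤ k) [DecidableEq M] (hext : ExtAvoid L M) (E : Set (Edge M))
    (hfin : E.Finite) (hE : Good L k E) (i : ℕ) (y : M) (hy : ∀ x, (i, x, y) ∉ E) :
    ∃ x, Good L k (insert (i, x, y) E) := by
  have hfin' : (swapE E).Finite := by
    refine Set.Finite.subset (hfin.image (fun e => (e.1, e.2.2, e.2.1))) ?_
    rintro ⟨i, x, y⟩ h
    exact ⟨(i, y, x), h, rfl⟩
  obtain ⟨x, hx⟩ := ext_dom hk hext (swapE E) hfin' hE.swap i y hy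
  refine ⟨x, ?_⟩
  have := hx.swap
  have h2 : swapE (insert (i, y, x) (swapE E)) = insert (i, x, y) E := by
    ext ⟨a, b, c⟩
    simp only [swapE, Set.mem_insert_iff, Set.mem_ofPred_eq, Prod.mk.injEq]
    tauto
  rwa [h2] at this

/-! ### Adding a new generator -/

theorem ext_tuple [L.IsRelational] (hr : RigidSubsets L M k) (E : Set (Edge M))
    (hfin : E.Finite) (hE : Good L k E) (a b : Tup M k) (hab : SameType L a.1 b.1)
    (hno : ¬ ∃ w, Pth (TS E k) w a b) :
    ∃ i, Good L k (E ∪ Set.range (fun j => (i, a.1 j, b.1 j))) := by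
  classical
  obtain ⟨i, hi⟩ : ∃ i : ℕ, ∀ e ∈ E, e.1 ≠ i := by
    let s : Finset ℕ := hfin.toFinset.image Prod.fst
    obtain ⟨i, hi⟩ := Infinite.exists_notMem_finset s
    refine ⟨i, fun e he h => hi ?_⟩
    simp only [s, Finset.mem_image, Set.Finite.mem_toFinset]
    exact ⟨e, he, h⟩
  refine ⟨i, ?_⟩
  set E' := E ∪ Set.range (fun j => (i, a.1 j, b.1 j)) with hE'
  have hmem : ∀ i' x y, (i', x, y) ∈ E' ↔ (i', x, y) ∈ E ∨ (i' = i ∧ ∃ j, x = a.1 j ∧ y = b.1 j) := by
    intro i' x y
    simp only [hE', Set.mem_union, Set.mem_range, Prod.mk.injEq]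
    refine or_congr_right ⟨?_, ?_⟩
    · rintro ⟨j, h1, h2, h3⟩
      exact ⟨h1.symm, j, h2.symm, h3.symm⟩
    · rintro ⟨h1, j, h2, h3⟩
      exact ⟨j, h1.symm, h2.symm, h3.symm⟩
  have hnew : ∀ x y, (i, x, y) ∈ E' ↔ ∃ j, x = a.1 j ∧ y = b.1 j := by
    intro x y
    rw [hmem]
    constructor
    · rintro (h | h)
      · exact absurd rfl (hi _ h)
      · exact h.2
    · intro h; exact Or.inr ⟨rfl, h⟩
  have hold : ∀ i' x y, i' ≠ i → ((i', x, y) ∈ E' ↔ (i', x, y) ∈ E) := by
    intro i' x y h
    rw [hmem]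
    constructor
    · rintro (h' | h')
      · exact h'
      · exact absurd h'.1 h
    · exact Or.inl
  have hfn : ∀ i' x y y', (i', x, y) ∈ E' → (i', x, y') ∈ E' → y = y' := by
    intro i' x y y' h1 h2
    by_cases h : i' = i
    · subst h
      rw [hnew] at h1 h2
      obtain ⟨j, h3, h4⟩ := h1
      obtain ⟨j', h5, h6⟩ := h2
      have : j = j' := a.2 (h3.symm.trans h5)
      rw [h4, h6, this]
    · rw [hold _ _ _ h] at h1 h2
      exact hE.fn _ _ _ _ h1 h2
  have hinj : ∀ i' x x' y, (i', x, y) ∈ E' → (i', x', y) ∈ E' → x = x' := by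
    intro i' x x' y h1 h2
    by_cases h : i' = i
    · subst h
      rw [hnew] at h1 h2
      obtain ⟨j, h3, h4⟩ := h1
      obtain ⟨j', h5, h6⟩ := h2
      have : j = j' := b.2 (h4.symm.trans h6)
      rw [h3, h5, this]
    · rw [hold _ _ _ h] at h1 h2
      exact hE.inj _ _ _ _ h1 h2
  refine ⟨?_, hfn, hinj, ?_⟩
  · intro i' n R x y hxy
    by_cases h : i' = i
    · subst h
      simp only [hnew] at hxy
      choose σ h1 h2 using hxy
      have h3 : x = fun j => a.1 (σ j) := funext h1
      have h4 : y = fun j => b.1 (σ j) := funext h2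
      rw [h3, h4]
      exact hab n R σ
    · exact hE.rel i' R x y (fun j => (hold _ _ _ h).1 (hxy j))
  · refine forest_join (T := Equiv.Perm (Fin k)) hE.forest (lab_TS hfn hinj) i
      (fun ε σ => if ε then a.perm σ else b.perm σ) ?_ ?_ ?_
    · intro l x y hl h j
      rcases h j with ⟨h1, h2⟩ | ⟨h1, h2⟩
      · exact Or.inl ⟨h1, (hold _ _ _ hl).1 h2⟩
      · exact Or.inr ⟨h1, (hold _ _ _ hl).1 h2⟩
    · intro ε x y h
      have aux : ∀ (x y : Tup M k), (∀ j, (i, x.1 j, y.1 j) ∈ E') →
          ∃ σ : Equiv.Perm (Fin k), x = a.perm σ ∧ y = b.perm σ := by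
        intro x y h
        simp only [hnew] at h
        choose σ h1 h2 using h
        have hσ : Function.Injective σ := by
          intro j j' hjj
          apply x.2
          rw [h1, h1, hjj]
        let σ' : Equiv.Perm (Fin k) := Equiv.ofBijective σ (Finite.injective_iff_bijective.1 hσ)
        exact ⟨σ', Subtype.ext (funext h1), Subtype.ext (funext h2)⟩
      cases ε with
      | true =>
        obtain ⟨σ, h1, h2⟩ := aux x y (fun j => by
          rcases h j with ⟨_, h2⟩ | ⟨h1, _⟩
          · exact h2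
          · simp at h1)
        exact ⟨σ, by simpa using h1, by simpa using h2⟩
      | false =>
        obtain ⟨σ, h1, h2⟩ := aux y x (fun j => by
          rcases h j with ⟨h1, _⟩ | ⟨_, h2⟩
          · simp at h1
          · exact h2)
        exact ⟨σ, by simpa using h2, by simpa using h1⟩
    · -- components are distinct
      have same : ∀ (c : Tup M k) (w : List Letter) (σ τ : Equiv.Perm (Fin k)),
          Pth (TS E k) w (c.perm σ) (c.perm τ) → σ = τ := by
        intro c w σ τ h
        have h1 := pth_sameType hE (pth_perm h σ⁻¹)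
        rw [Tup.perm_perm, Tup.perm_perm, mul_inv_cancel, Tup.perm_one] at h1
        have h2 := rigid_perm hr c.2 (ρ := τ * σ⁻¹) h1
        rw [mul_inv_eq_one] at h2
        exact h2.symm
      have diff : ∀ (w : List Letter) (σ τ : Equiv.Perm (Fin k)),
          ¬ Pth (TS E k) w (a.perm σ) (b.perm τ) := by
        intro w σ τ h
        have h0 := pth_perm h σ⁻¹
        rw [Tup.perm_perm, Tup.perm_perm, mul_inv_cancel, Tup.perm_one] at h0
        have h1 := pth_sameType hE h0
        have h2 := rigid_perm hr b.2 (ρ := τ * σ⁻¹) (hab.symm.trans h1)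
        rw [h2, Tup.perm_one] at h0
        exact hno ⟨w, h0⟩
      intro w ε σ ε' τ h
      cases ε with
      | true =>
        cases ε' with
        | true =>
          simp only [if_true] at h
          exact ⟨rfl, same a w σ τ h⟩
        | false =>
          simp only [if_true, Bool.false_eq_true, if_false] at h
          exact absurd h (diff w σ τ)
      | false =>
        cases ε' with
        | true =>
          simp only [if_true, Bool.false_eq_true, if_false] at h
          exact absurd (pth_rev hE.lab h) (diff _ τ σ)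
        | false =>
          simp only [Bool.false_eq_true, if_false] at h
          exact ⟨rfl, same b w σ τ h⟩

/-! ### The generic construction -/

/-- finite good edge sets -/
def State (L : FirstOrder.Language.{u, v}) (M : Type w) [L.Structure M] (k : ℕ) : Type w :=
  {E : Set (Edge M) // E.Finite ∧ Good L k E}

instance : Preorder (State L M k) := Preorder.lift (fun s => s.1)

/-- requirements -/
abbrev Req (M : Type w) (k : ℕ) := (ℕ × M) ⊕ (ℕ × M) ⊕ (Tup M k × Tup M k)

/-- when a state meets a requirement -/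
def Meets (L : FirstOrder.Language.{u, v}) {M : Type w} [L.Structure M] {k : ℕ}
    (E : Set (Edge M)) : Req M k → Prop
  | Sum.inl (i, x) => ∃ y, (i, x, y) ∈ E
  | Sum.inr (Sum.inl (i, y)) => ∃ x, (i, x, y) ∈ E
  | Sum.inr (Sum.inr (a, b)) => SameType L a.1 b.1 → ∃ w, Pth (TS E k) w a b

theorem meets_cofinal [L.IsRelational] (hk : 1 ≤ k) [DecidableEq M] (hext : ExtAvoid L M)
    (hr : RigidSubsets L M k) (r : Req M k) (s : State L M k) :
    ∃ s' : State L M k, s ≤ s' ∧ Meets L s'.1 r := by
  obtain ⟨E, hfin, hE⟩ := s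
  rcases r with ⟨i, x⟩ | ⟨i, y⟩ | ⟨a, b⟩
  · by_cases h : ∃ y, (i, x, y) ∈ E
    · exact ⟨⟨E, hfin, hE⟩, le_refl _, h⟩
    · push Not at h
      obtain ⟨y, hy⟩ := ext_dom hk hext E hfin hE i x h
      exact ⟨⟨_, hfin.insert _, hy⟩, Set.subset_insert _ _, ⟨y, Set.mem_insert _ _⟩⟩
  · by_cases h : ∃ x, (i, x, y) ∈ E
    · exact ⟨⟨E, hfin, hE⟩, le_refl _, h⟩
    · push Not at h
      obtain ⟨x, hx⟩ := ext_ran hk hext E hfin hE i y h
      exact ⟨⟨_, hfin.insert _, hx⟩, Set.subset_insert _ _, ⟨x, Set.mem_insert _ _⟩⟩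
  · by_cases h : SameType L a.1 b.1 → ∃ w, Pth (TS E k) w a b
    · exact ⟨⟨E, hfin, hE⟩, le_refl _, h⟩
    · push Not at h
      obtain ⟨hab, hno⟩ := h
      obtain ⟨i, hi⟩ := ext_tuple hr E hfin hE a b hab (by push Not; exact hno)
      refine ⟨⟨_, hfin.union (Set.finite_range _), hi⟩, Set.subset_union_left, fun _ => ?_⟩
      refine ⟨[(i, true)], a, rfl, fun j => Or.inl ⟨rfl, Or.inr ⟨j, rfl⟩⟩⟩

theorem good_empty (hk : 1 ≤ k) [L.IsRelational] : Good L k (∅ : Set (Edge M)) := by
  refine ⟨fun i {n} R x y h => ?_, fun i x y y' h => absurd h (Set.notMem_empty _),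
    fun i x x' y h => absurd h (Set.notMem_empty _), ?_⟩
  · cases n with
    | zero =>
      have : x = y := funext fun j => j.elim0
      rw [this]
    | succ n => exact absurd (h 0) (Set.notMem_empty _)
  · intro w x hw hr hp
    obtain ⟨l, w, rfl⟩ := List.exists_cons_of_ne_nil hw
    obtain ⟨y, -, h⟩ := hp
    rcases h ⟨0, hk⟩ with ⟨_, h⟩ | ⟨_, h⟩ <;> exact absurd h (Set.notMem_empty _)

/-- A good set of edges (not nec. finite) in which all requirements are met. -/
theorem exists_total [L.IsRelational] [Countable M] (hk : 1 ≤ k) (hext : ∀ [DecidableEq M], ExtAvoid L M)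
    (hr : RigidSubsets L M k) : ∃ U : Set (Edge M), Good L k U ∧ ∀ r : Req M k, Meets L U r := by
  classical
  have : Countable (Tup M k) := inferInstance
  have : Countable (Req M k) := inferInstance
  have : Encodable (Req M k) := Encodable.ofCountable _
  let 𝒟 : Req M k → Order.Cofinal (State L M k) := fun r =>
    ⟨{s | Meets L s.1 r}, fun s => by
      obtain ⟨s', h1, h2⟩ := meets_cofinal hk hext hr r s
      exact ⟨s', h2, h1⟩⟩
  let p : State L M k := ⟨∅, Set.finite_empty, good_empty hk⟩
  let I := Order.idealOfCofinals p 𝒟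
  have hdir : ∀ s ∈ I, ∀ t ∈ I, ∃ u ∈ I, s ≤ u ∧ t ≤ u := fun s hs t ht => I.directed s hs t ht
  let U : Set (Edge M) := {e | ∃ s ∈ I, e ∈ s.1}
  have hle : ∀ s ∈ I, s.1 ⊆ U := fun s hs e he => ⟨s, hs, he⟩
  have hne : ∃ s, s ∈ I := I.nonempty
  -- finitely many edges lie in one state
  have hfinU : ∀ (n : ℕ) (e : Fin n → Edge M), (∀ j, e j ∈ U) → ∃ s ∈ I, ∀ j, e j ∈ s.1 := by
    intro n
    induction n with
    | zero => intro e _; obtain ⟨s, hs⟩ := hne; exact ⟨s, hs, fun j => j.elim0⟩
    | succ n ih =>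
      intro e he
      obtain ⟨s, hs, hs'⟩ := ih (fun j => e j.succ) (fun j => he _)
      obtain ⟨t, ht, ht'⟩ := he 0
      obtain ⟨u, hu, hsu, htu⟩ := hdir s hs t ht
      refine ⟨u, hu, fun j => ?_⟩
      refine Fin.cases (htu ht') (fun j => hsu (hs' j)) j
  have hStmono : ∀ {E E' : Set (Edge M)}, E ⊆ E' → ∀ l x y, TS E k l x y → TS E' k l x y := by
    intro E E' h l x y hxy j
    rcases hxy j with ⟨h1, h2⟩ | ⟨h1, h2⟩
    · exact Or.inl ⟨h1, h h2⟩
    · exact Or.inr ⟨h1, h h2⟩
  have hpth : ∀ (w : List Letter) (x y : Tup M k), Pth (TS U k) w x y →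
      ∃ s ∈ I, Pth (TS s.1 k) w x y := by
    intro w
    induction w with
    | nil => intro x y h; obtain ⟨s, hs⟩ := hne; exact ⟨s, hs, h⟩
    | cons l w ih =>
      rintro x y ⟨z, hz, hzy⟩
      obtain ⟨s, hs, hs'⟩ := ih x z hz
      have : ∃ t ∈ I, TS t.1 k l z y := by
        obtain ⟨t, ht, ht'⟩ := hfinU k
          (fun j => if l.2 then (l.1, z.1 j, y.1 j) else (l.1, y.1 j, z.1 j)) (by
            intro j
            rcases hzy j with ⟨h1, h2⟩ | ⟨h1, h2⟩
            · simp only [h1, if_true]; exact h2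
            · simp only [h1, Bool.false_eq_true, if_false]; exact h2)
        refine ⟨t, ht, fun j => ?_⟩
        have := ht' j
        cases hl : l.2 with
        | true => rw [hl] at this; simp only [if_true] at this; exact Or.inl ⟨hl, this⟩
        | false =>
          rw [hl] at this; simp only [Bool.false_eq_true, if_false] at this
          exact Or.inr ⟨hl, this⟩
      obtain ⟨t, ht, ht'⟩ := this
      obtain ⟨u, hu, hsu, htu⟩ := hdir s hs t ht
      exact ⟨u, hu, z, hs'.mono (fun l _ x y h => hStmono hsu l x y h), hStmono htu _ _ _ ht'⟩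
  refine ⟨U, ⟨?_, ?_, ?_, ?_⟩, ?_⟩
  · intro i n R x y h
    obtain ⟨s, hs, hs'⟩ := hfinU n (fun j => (i, x j, y j)) h
    exact s.2.2.rel i R x y hs'
  · rintro i x y y' ⟨s, hs, h1⟩ ⟨t, ht, h2⟩
    obtain ⟨u, hu, hsu, htu⟩ := hdir s hs t ht
    exact u.2.2.fn i x y y' (hsu h1) (htu h2)
  · rintro i x y y' ⟨s, hs, h1⟩ ⟨t, ht, h2⟩
    obtain ⟨u, hu, hsu, htu⟩ := hdir s hs t ht
    exact u.2.2.inj i x y y' (hsu h1) (htu h2)
  · intro w x hw hr hp
    obtain ⟨s, hs, hs'⟩ := hpth w x x hp
    exact s.2.2.forest w x hw hr hs'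
  · intro r
    obtain ⟨s, hs, hsI⟩ := Order.cofinal_meets_idealOfCofinals p 𝒟 r
    have hs : Meets L s.1 r := hs
    rcases r with ⟨i, x⟩ | ⟨i, y⟩ | ⟨a, b⟩
    · obtain ⟨y, hy⟩ := hs
      exact ⟨y, hle s hsI hy⟩
    · obtain ⟨x, hx⟩ := hs
      exact ⟨x, hle s hsI hx⟩
    · intro hab
      obtain ⟨w, hw⟩ := hs hab
      exact ⟨w, hw.mono (fun l _ x y h => hStmono (hle s hsI) l x y h)⟩

/-- Every relational Fraisse structure with strong amalgamation and rigid `k`-subsets, `k ≥ 1`,
admits a structurally sharply `k`-transitive action of some group. -/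
theorem result (k : ℕ) (hk : 1 ≤ k) (L : FirstOrder.Language.{u, v}) [L.IsRelational]
    (M : Type w) [L.Structure M] [Countable M] [Infinite M]
    (hu : L.IsUltrahomogeneous M) (hs : StrongAmalgamation (L.age M))
    (hr : RigidSubsets L M k) :
    ∃ (G : Type w) (_ : Group G) (_ : MulAction G M), StructurallySharplyTransitive L M G k := by
  classical
  obtain ⟨U, hU, hmeet⟩ := exists_total (L := L) (M := M) hk (fun {_} => extAvoid_of hu hs) hr
  have hdom : ∀ i x, ∃ y, (i, x, y) ∈ U := fun i x => hmeet (Sum.inl (i, x))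
  have hran : ∀ i y, ∃ x, (i, x, y) ∈ U := fun i y => hmeet (Sum.inr (Sum.inl (i, y)))
  choose f hf using hdom
  choose f' hf' using hran
  let g : ℕ → Equiv.Perm M := fun i =>
    { toFun := f i
      invFun := f' i
      left_inv := fun x => hU.inj i _ _ _ (hf' i (f i x)) (hf i x)
      right_inv := fun y => hU.fn i _ _ _ (hf i (f' i y)) (hf' i y) }
  have hg : ∀ i x, g i x = f i x := fun i x => rfl
  -- letters as permutations
  let ev : Letter → Equiv.Perm M := fun l => cond l.2 (g l.1) (g l.1)⁻¹
  have hev : ∀ l x y, St U l x y ↔ ev l x = y := by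
    intro l x y
    obtain ⟨i, ε⟩ := l
    cases ε with
    | true =>
      constructor
      · rintro (⟨_, h⟩ | ⟨h, _⟩)
        · exact hU.fn i _ _ _ (hf i x) h
        · simp at h
      · rintro rfl
        exact Or.inl ⟨rfl, hf i x⟩
    | false =>
      constructor
      · rintro (⟨h, _⟩ | ⟨_, h⟩)
        · simp at h
        · exact hU.inj i _ _ _ (hf' i x) h
      · rintro rfl
        exact Or.inr ⟨rfl, hf' i x⟩
  have hpth : ∀ (w : List Letter) (t t' : Tup M k),
      Pth (TS U k) w t t' ↔ ∀ j, (w.map ev).prod (t.1 j) = t'.1 j := by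
    intro w
    induction w with
    | nil =>
      intro t t'
      simp only [Pth, List.map_nil, List.prod_nil, Equiv.Perm.coe_one, id]
      constructor
      · rintro rfl j; rfl
      · intro h; exact Subtype.ext (funext h)
    | cons l w ih =>
      intro t t'
      simp only [Pth, List.map_cons, List.prod_cons, Equiv.Perm.coe_mul, Function.comp]
      constructor
      · rintro ⟨s, hs, hs'⟩ j
        rw [(ih t s).1 hs j]
        exact (hev _ _ _).1 (hs' j)
      · intro h
        refine ⟨⟨fun j => (w.map ev).prod (t.1 j), fun j j' hjj => t.2 (Equiv.injective _ hjj)⟩,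
          (ih _ _).2 (fun j => rfl), fun j => (hev _ _ _).2 (h j)⟩
  -- the group
  let φ : FreeGroup ℕ →* Equiv.Perm M := FreeGroup.lift g
  have hφ : ∀ w : List Letter, φ (FreeGroup.mk w) = (w.map ev).prod := by
    intro w
    rw [FreeGroup.lift_mk]
  let G : Subgroup (Equiv.Perm M) := φ.range
  have hrel1 : ∀ (l : Letter) {n : ℕ} (R : L.Relations n) (x : Fin n → M),
      RelMap R (fun i => ev l (x i)) ↔ RelMap R x := by
    intro l n R x
    obtain ⟨i, ε⟩ := l
    cases ε with
    | true =>
      exact (hU.rel i R x (fun j => ev (i, true) (x j)) (fun j => hf i (x j))).symm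
    | false =>
      exact hU.rel i R (fun j => ev (i, false) (x j)) x (fun j => hf' i (x j))
  have hrel2 : ∀ (w : List Letter) {n : ℕ} (R : L.Relations n) (x : Fin n → M),
      RelMap R (fun i => (w.map ev).prod (x i)) ↔ RelMap R x := by
    intro w
    induction w with
    | nil => intro n R x; simp
    | cons l w ih =>
      intro n R x
      simp only [List.map_cons, List.prod_cons, Equiv.Perm.coe_mul, Function.comp]
      rw [hrel1 l R (fun i => (w.map ev).prod (x i)), ih R x]
  have hGword : ∀ γ : G, ∃ w : List Letter, Reduced w ∧ (γ : Equiv.Perm M) = (w.map ev).prod := by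
    rintro ⟨γ, x, rfl⟩
    refine ⟨x.toWord, ?_, ?_⟩
    · have h1 : FreeGroup.IsReduced x.toWord := FreeGroup.isReduced_toWord
      unfold Reduced
      unfold FreeGroup.IsReduced at h1
      refine h1.imp ?_
      intro a b hab h
      have h2 : a.1 = b.1 := by rw [h]; rfl
      have h3 := hab h2
      rw [h] at h3
      simp [inv] at h3
    · change φ x = _
      rw [← hφ, FreeGroup.mk_toWord]
  -- elements fixing an injective tuple are trivial
  have hfree : ∀ (γ : G) (t : Tup M k), (∀ j, (γ : Equiv.Perm M) (t.1 j) = t.1 j) → γ = 1 := by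
    intro γ t h
    obtain ⟨w, hw, hγ⟩ := hGword γ
    by_cases hw0 : w = []
    · subst hw0
      apply Subtype.ext
      rw [hγ]; simp
    · exfalso
      refine hU.forest w t hw0 hw ((hpth w t t).2 fun j => ?_)
      rw [← hγ]; exact h j
  refine ⟨G, inferInstance, inferInstance, ?_, ?_⟩
  · intro γ
    refine ⟨fun n F => isEmptyElim F, fun n R x => ?_⟩
    obtain ⟨w, -, hγ⟩ := hGword γ
    have : (fun i => γ • x i) = fun i => (w.map ev).prod (x i) := by
      funext i; rw [← hγ]; rfl
    rw [this]
    exact hrel2 w R x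
  · intro a b ha hb hab
    obtain ⟨w, hw⟩ := hmeet (Sum.inr (Sum.inr (⟨a, ha⟩, ⟨b, hb⟩))) hab
    rw [hpth] at hw
    refine ⟨⟨φ (FreeGroup.mk w), ⟨_, rfl⟩⟩, ?_, ?_⟩
    · intro i
      change φ (FreeGroup.mk w) (a i) = b i
      rw [hφ]; exact hw i
    · intro γ hγ
      have h1 : (⟨φ (FreeGroup.mk w), ⟨_, rfl⟩⟩ : G)⁻¹ * γ = 1 := by
        refine hfree _ ⟨a, ha⟩ (fun j => ?_)
        change (φ (FreeGroup.mk w))⁻¹ (γ • a j) = a j
        rw [hγ j, Equiv.Perm.inv_eq_iff_eq, hφ]
        exact (hw j).symm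
      rw [inv_mul_eq_one] at h1
      exact h1.symm

end Pool.Agent.Results.MP_301b8f_al.RigidSharp
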